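import Pool.Agent.W999.LS.Tensor

/-!
# Heights on products of powers
-/

set_option autoImplicit false

namespace Pool.Agent.W999.LS

open Finset

/-- nonnegative quadratic forms on abelian groups, such as Néron-Tate heights on `B(K)` -/
def IsHeight {M : Type} [AddCommGroup M] (q : M → ℝ) : Prop :=
  (∀ P, 0 ≤ q P) ∧ ∀ P Q, q (P + Q) + q (P - Q) = 2 * (q P + q Q)

/-- the bilinear form with `pairing q P P = q P` -/
noncomputable def pairing {M : Type} [AddCommGroup M] (q : M → ℝ) (P Q : M) : ℝ :=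
  (q (P + Q) - q P - q Q) / 2

/-- the height of the point `P` of `∏ j, B_j ^ (n j)` for the line bundle given by the symmetric
integral matrices `H j` -/
noncomputable def height {r : ℕ} {n : Fin r → ℕ} {M : Fin r → Type} [∀ j, AddCommGroup (M j)]
    (q : ∀ j, M j → ℝ) (H : ∀ j, Matrix (Fin (n j)) (Fin (n j)) ℤ)
    (P : ∀ j, Fin (n j) → M j) : ℝ :=
  ∑ j, ∑ k, ∑ l, (H j k l : ℝ) * pairing (q j) (P j k) (P j l)

section

variable {M : Type} [AddCommGroup M]

theorem exists_form {q : M → ℝ} (hq : IsHeight q) : ∃ B : M →+ M →+ ℝ, (∀ P, B P P = q P) ∧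
    (∀ P Q, B P Q = B Q P) ∧ ∀ P Q, pairing q P Q = B P Q := by
  obtain ⟨B, hB, hs⟩ := Pool.Agent.H437R2.Man.MW.polar q hq.2
  refine ⟨B, hB, hs, ?_⟩
  intro P Q
  unfold pairing
  rw [← hB (P + Q), ← hB P, ← hB Q]
  simp only [map_add, AddMonoidHom.add_apply]
  rw [hs Q P]
  ring

theorem height_nsmul {q : M → ℝ} (hq : IsHeight q) (N : ℕ) (P : M) :
    q (N • P) = (N : ℝ) ^ 2 * q P := by
  obtain ⟨B, hB, -, -⟩ := exists_form hq
  rw [← hB, ← hB]
  have e1 : B (N • P) = N • B P := map_nsmul _ _ _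
  have e2 : B P (N • P) = N • B P P := map_nsmul _ _ _
  rw [e1, AddMonoidHom.smul_apply, e2, nsmul_eq_mul, nsmul_eq_mul]
  ring

theorem height_torsion {q : M → ℝ} (hq : IsHeight q) {P : M} (hP : IsOfFinAddOrder P) :
    q P = 0 := by
  obtain ⟨N, hN, h0⟩ := isOfFinAddOrder_iff_nsmul_eq_zero.1 hP
  have h1 := height_nsmul hq N P
  have h2 : q 0 = 0 := by
    have := hq.2 0 0
    rw [add_zero, sub_zero] at this
    linarith
  rw [h0, h2] at h1
  have h3 : (0 : ℝ) < (N : ℝ) ^ 2 := by positivity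
  rcases mul_eq_zero.1 h1.symm with h4 | h4
  · exact absurd h4 h3.ne'
  · exact h4

/-- the form of an integral matrix -/
noncomputable def mform {n : ℕ} (H : Matrix (Fin n) (Fin n) ℤ) :
    (Fin n → ℤ) →+ (Fin n → ℤ) →+ ℝ :=
  AddMonoidHom.mk' (fun x => AddMonoidHom.mk'
    (fun y => ((∑ k, ∑ l, x k * y l * H k l : ℤ) : ℝ))
    (fun y z => by
      rw [← Int.cast_add]
      congr 1
      rw [← Finset.sum_add_distrib]
      refine Finset.sum_congr rfl fun k _ => ?_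
      rw [← Finset.sum_add_distrib]
      refine Finset.sum_congr rfl fun l _ => ?_
      rw [Pi.add_apply]
      ring))
    (fun x y => AddMonoidHom.ext fun z => by
      show ((∑ k, ∑ l, (x + y) k * z l * H k l : ℤ) : ℝ) =
        ((∑ k, ∑ l, x k * z l * H k l : ℤ) : ℝ) + ((∑ k, ∑ l, y k * z l * H k l : ℤ) : ℝ)
      rw [← Int.cast_add]
      congr 1
      rw [← Finset.sum_add_distrib]
      refine Finset.sum_congr rfl fun k _ => ?_
      rw [← Finset.sum_add_distrib]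
      refine Finset.sum_congr rfl fun l _ => ?_
      rw [Pi.add_apply]
      ring)

theorem mform_apply {n : ℕ} (H : Matrix (Fin n) (Fin n) ℤ) (x y : Fin n → ℤ) :
    mform H x y = ((∑ k, ∑ l, x k * y l * H k l : ℤ) : ℝ) := rfl

theorem mform_single {n : ℕ} (H : Matrix (Fin n) (Fin n) ℤ) (i j : Fin n) :
    mform H (Pi.single i 1) (Pi.single j 1) = (H i j : ℝ) := by
  rw [mform_apply]
  congr 1
  rw [Finset.sum_eq_single i]
  · rw [Finset.sum_eq_single j]
    · simp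
    · intro l _ hl
      rw [Pi.single_eq_of_ne hl]
      ring
    · intro h
      exact absurd (Finset.mem_univ j) h
  · intro k _ hk
    refine Finset.sum_eq_zero fun l _ => ?_
    rw [Pi.single_eq_of_ne hk]
    ring
  · intro h
    exact absurd (Finset.mem_univ i) h

theorem symm_of_posDef {n : ℕ} {H : Matrix (Fin n) (Fin n) ℤ}
    (hH : (H.map (Int.cast : ℤ → ℝ)).PosDef) (k l : Fin n) : H k l = H l k := by
  have h1 := hH.isHermitian
  have h2 := congrFun (congrFun h1 l) k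
  simp only [Matrix.conjTranspose_apply, Matrix.map_apply, star_trivial] at h2
  exact_mod_cast h2

theorem mform_symm {n : ℕ} {H : Matrix (Fin n) (Fin n) ℤ}
    (hH : (H.map (Int.cast : ℤ → ℝ)).PosDef) (x y : Fin n → ℤ) : mform H x y = mform H y x := by
  rw [mform_apply, mform_apply]
  congr 1
  rw [Finset.sum_comm]
  refine Finset.sum_congr rfl fun k _ => Finset.sum_congr rfl fun l _ => ?_
  rw [symm_of_posDef hH]
  ring

theorem mform_ge {n : ℕ} {H : Matrix (Fin n) (Fin n) ℤ}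
    (hH : (H.map (Int.cast : ℤ → ℝ)).PosDef) (x : Fin n → ℤ) (hx : x ≠ 0) : 1 ≤ mform H x x := by
  have hx' : (fun i => (x i : ℝ)) ≠ 0 := by
    intro h
    apply hx
    funext i
    have := congrFun h i
    simp only [Pi.zero_apply] at this
    exact_mod_cast this
  have h1 := hH.dotProduct_mulVec_pos hx'
  have h2 : star (fun i => (x i : ℝ)) ⬝ᵥ ((H.map (Int.cast : ℤ → ℝ)).mulVec fun i => (x i : ℝ)) =
      mform H x x := by
    rw [mform_apply]
    simp only [dotProduct, Matrix.mulVec, star_trivial, Matrix.map_apply]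
    push_cast
    refine Finset.sum_congr rfl fun k _ => ?_
    rw [Finset.mul_sum]
    refine Finset.sum_congr rfl fun l _ => ?_
    ring
  rw [h2, mform_apply] at h1
  rw [mform_apply]
  have h3 : (0 : ℤ) < ∑ k, ∑ l, x k * x l * H k l := by exact_mod_cast h1
  exact_mod_cast h3

/-- one block -/
theorem block {q : M → ℝ} (hq : IsHeight q) {n : ℕ} {H : Matrix (Fin n) (Fin n) ℤ}
    (hH : (H.map (Int.cast : ℤ → ℝ)).PosDef) (μ : ℝ) (hμ : 0 ≤ μ)
    (hmin : ∀ P, ¬ IsOfFinAddOrder P → μ ≤ q P) (P : Fin n → M)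
    (hP : ∃ k, ¬ IsOfFinAddOrder (P k)) :
    (3 / 4 : ℝ) ^ (n - 1) * μ ≤ ∑ k, ∑ l, (H k l : ℝ) * pairing q (P k) (P l) := by
  obtain ⟨B, hB, hs, hpair⟩ := exists_form hq
  have hB0 : ∀ P, 0 ≤ B P P := fun P => by rw [hB]; exact hq.1 P
  have hmin' : ∀ P, B P P ≠ 0 → μ ≤ B P P := by
    intro P hP
    rw [hB] at hP ⊢
    exact hmin P fun h => hP (height_torsion hq h)
  have hT : T B (mform H) (fun i => Pi.single i 1) P =
      ∑ k, ∑ l, (H k l : ℝ) * pairing q (P k) (P l) := by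
    unfold T
    refine Finset.sum_congr rfl fun k _ => Finset.sum_congr rfl fun l _ => ?_
    rw [mform_single, hpair]
  rw [← hT]
  by_cases hc : ∃ i, B (P i) (P i) ≠ 0
  · have h1 := tensor_min B hs hB0 μ hμ hmin' n (mform H) (mform_symm hH) 1 one_pos
      (mform_ge hH) P hc
    rwa [mul_one] at h1
  · push Not at hc
    obtain ⟨k, hk⟩ := hP
    have h1 := hmin _ hk
    rw [← hB, hc k] at h1
    have h2 : μ = 0 := le_antisymm h1 hμ
    have h3 : T B (mform H) (fun i => Pi.single i 1) P = 0 := by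
      unfold T
      refine Finset.sum_eq_zero fun i _ => Finset.sum_eq_zero fun j _ => ?_
      rw [radical B hs hB0 (hc i), mul_zero]
    rw [h2, h3, mul_zero]

end

/-- **lower bound on products of powers, for all polarizations** -/
theorem main (r : ℕ) (n : Fin r → ℕ) (M : Fin r → Type) [∀ j, AddCommGroup (M j)]
    (q : ∀ j, M j → ℝ) (hq : ∀ j, IsHeight (q j)) (μ : Fin r → ℝ) (hμ : ∀ j, 0 ≤ μ j)
    (hmin : ∀ j P, ¬ IsOfFinAddOrder P → μ j ≤ q j P)
    (H : ∀ j, Matrix (Fin (n j)) (Fin (n j)) ℤ)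
    (hH : ∀ j, ((H j).map (Int.cast : ℤ → ℝ)).PosDef)
    (X : Type) [AddCommGroup X] (T : X → ℝ) (hT : IsHeight T)
    (φ : (∀ j, Fin (n j) → M j) →+ X) (ψ : X →+ (∀ j, Fin (n j) → M j)) (N : ℕ) (hN : 0 < N)
    (hφψ : ∀ x, φ (ψ x) = N • x) (hTφ : ∀ P, T (φ P) = height q H P)
    (x : X) (hx : ∀ j, ∃ k, ¬ IsOfFinAddOrder (ψ x j k)) :
    (∑ j, (3 / 4 : ℝ) ^ (n j - 1) * μ j) / (N : ℝ) ^ 2 ≤ T x := by
  have hN2 : (0 : ℝ) < (N : ℝ) ^ 2 := by positivity
  have h1 : (N : ℝ) ^ 2 * T x = height q H (ψ x) := by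
    rw [← height_nsmul hT, ← hφψ, hTφ]
  have h2 : ∑ j, (3 / 4 : ℝ) ^ (n j - 1) * μ j ≤ height q H (ψ x) := by
    unfold height
    exact Finset.sum_le_sum fun j _ => block (hq j) (hH j) (μ j) (hμ j) (hmin j) _ (hx j)
  rw [div_le_iff₀ hN2, mul_comm, h1]
  exact h2

/-- the numerical consequence for the Faltings heights -/
theorem numeric (r : ℕ) (n : Fin r → ℕ) (hn : ∀ j, 1 ≤ n j) (f μ : Fin r → ℝ) (c : ℝ) (hc : 0 ≤ c)
    (hr : 1 ≤ r) (hf : ∀ j, c * max (f j) 1 ≤ μ j) :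
    c / (∑ j, n j : ℕ) * (3 / 4 : ℝ) ^ ((∑ j, n j) - 1) * max (∑ j, n j * f j) 1 ≤
      ∑ j, (3 / 4 : ℝ) ^ (n j - 1) * μ j := by
  set g : ℕ := ∑ j, n j with hg
  have hng : ∀ j, n j ≤ g := fun j => Finset.single_le_sum (f := n) (fun _ _ => Nat.zero_le _)
    (Finset.mem_univ j)
  have hg1 : 1 ≤ g := (hn ⟨0, hr⟩).trans (hng _)
  have hg0 : (0 : ℝ) < g := by exact_mod_cast hg1
  have h34 : (0 : ℝ) ≤ (3 / 4 : ℝ) ^ (g - 1) := by positivity
  have h1 : ∀ j, (3 / 4 : ℝ) ^ (g - 1) * (c * max (f j) 1) ≤ (3 / 4 : ℝ) ^ (n j - 1) * μ j := by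
    intro j
    have h2 : (3 / 4 : ℝ) ^ (g - 1) ≤ (3 / 4 : ℝ) ^ (n j - 1) :=
      pow_le_pow_of_le_one (by norm_num) (by norm_num) (Nat.sub_le_sub_right (hng j) 1)
    have h3 : 0 ≤ c * max (f j) 1 := mul_nonneg hc (le_max_of_le_right zero_le_one)
    exact mul_le_mul h2 (hf j) h3 (by positivity)
  have h4 : max (∑ j, (n j : ℝ) * f j) 1 ≤ ∑ j, (n j : ℝ) * max (f j) 1 := by
    apply max_le
    · exact Finset.sum_le_sum fun j _ =>
        mul_le_mul_of_nonneg_left (le_max_left _ _) (Nat.cast_nonneg _)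
    · have h5 : (1 : ℝ) ≤ (n ⟨0, hr⟩ : ℝ) * max (f ⟨0, hr⟩) 1 := by
        have a1 : (1 : ℝ) ≤ n ⟨0, hr⟩ := by exact_mod_cast hn ⟨0, hr⟩
        have a2 : (1 : ℝ) ≤ max (f ⟨0, hr⟩) 1 := le_max_right _ _
        nlinarith
      refine h5.trans (Finset.single_le_sum (f := fun j => (n j : ℝ) * max (f j) 1)
        (fun j _ => ?_) (Finset.mem_univ _))
      exact mul_nonneg (Nat.cast_nonneg _) (le_max_of_le_right zero_le_one)
  have h6 : ∑ j, (n j : ℝ) * max (f j) 1 ≤ g * ∑ j, max (f j) 1 := by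
    rw [Finset.mul_sum]
    refine Finset.sum_le_sum fun j _ => mul_le_mul_of_nonneg_right ?_
      (le_max_of_le_right zero_le_one)
    exact_mod_cast hng j
  calc c / (g : ℝ) * (3 / 4 : ℝ) ^ (g - 1) * max (∑ j, n j * f j) 1
      ≤ c / (g : ℝ) * (3 / 4 : ℝ) ^ (g - 1) * (g * ∑ j, max (f j) 1) :=
        mul_le_mul_of_nonneg_left (h4.trans h6) (by positivity)
    _ = ∑ j, (3 / 4 : ℝ) ^ (g - 1) * (c * max (f j) 1) := by
        rw [Finset.mul_sum, Finset.mul_sum]
        refine Finset.sum_congr rfl fun j _ => ?_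
        field_simp
    _ ≤ _ := Finset.sum_le_sum fun j _ => h1 j

end Pool.Agent.W999.LS
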