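import Pool.Agent.W999.LS.Twist

/-!
# Lang's lower bound for the quadratic twists of a curve with rational two-torsion
-/

set_option autoImplicit false

open WeierstrassCurve Height
open Pool.Agent.H437R2.Man.MW

namespace Pool.Agent.W999.LS

/-- the quadratic twist by `d` of `y ^ 2 = (x + e 0) (x + e 1) (x + e 2)`:
`y ^ 2 = (x + d e 0) (x + d e 1) (x + d e 2)` -/
def tw (e : Fin 3 → ℤ) (d : ℤ) : WeierstrassCurve ℚ :=
  crv ((d : ℚ) * (e 0 : ℚ)) ((d : ℚ) * (e 1 : ℚ)) ((d : ℚ) * (e 2 : ℚ))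

/-- the Néron-Tate height of the points over `ℚ` of an elliptic curve for the divisor `(O)`, by its
characterisation -/
def IsNT (E : WeierstrassCurve ℚ) (q : E.toAffine.Point → ℝ) : Prop :=
  (∀ P Q, q (P + Q) + q (P - Q) = 2 * (q P + q Q)) ∧
    ∃ C : ℝ, ∀ P, |q P - logHeight P.xRep / 2| ≤ C

section abstr

variable {M : Type} [AddCommGroup M]

theorem nsmul_of_par {q : M → ℝ} (hq : ∀ P Q, q (P + Q) + q (P - Q) = 2 * (q P + q Q)) (N : ℕ)
    (P : M) : q (N • P) = (N : ℝ) ^ 2 * q P := by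
  obtain ⟨B, hB, -⟩ := Pool.Agent.H437R2.Man.MW.polar q hq
  rw [← hB, ← hB]
  have e1 : B (N • P) = N • B P := map_nsmul _ _ _
  have e2 : B P (N • P) = N • B P P := map_nsmul _ _ _
  rw [e1, AddMonoidHom.smul_apply, e2, nsmul_eq_mul, nsmul_eq_mul]
  ring

/-- uniform comparison -/
theorem near_unif {q h : M → ℝ} (hq : ∀ P Q, q (P + Q) + q (P - Q) = 2 * (q P + q Q))
    (C D : ℝ) (h0 : h 0 = 0) (hC : ∀ P Q, |h (P + Q) + h (P - Q) - 2 * (h P + h Q)| ≤ C)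
    (hD : ∀ P, |q P - h P / 2| ≤ D) (P : M) : |q P - h P / 2| ≤ C / 6 := by
  have hb : BddAbove (Set.range fun P => |q P - h P / 2|) := ⟨D, by rintro _ ⟨P, rfl⟩; exact hD P⟩
  have h1 : ∀ P, |q P - h P / 2| ≤ (⨆ P, |q P - h P / 2|) / 4 + C / 8 := by
    intro P
    have a1 := nsmul_of_par hq 2 P
    rw [two_nsmul] at a1
    have a2 := hC P P
    rw [sub_self, h0] at a2
    have a3 : |q (P + P) - h (P + P) / 2| ≤ ⨆ P, |q P - h P / 2| :=
      le_ciSup hb (P + P)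
    rw [abs_le] at a2 a3 ⊢
    norm_num at a1
    constructor <;> linarith [a2.1, a2.2, a3.1, a3.2]
  have h2 : (⨆ P, |q P - h P / 2|) ≤ (⨆ P, |q P - h P / 2|) / 4 + C / 8 := ciSup_le h1
  have h3 : |q P - h P / 2| ≤ ⨆ P, |q P - h P / 2| := le_ciSup hb P
  linarith

theorem nonneg_of_near {q h : M → ℝ} (hq : ∀ P Q, q (P + Q) + q (P - Q) = 2 * (q P + q Q))
    (D : ℝ) (h0 : ∀ P, 0 ≤ h P) (hD : ∀ P, |q P - h P / 2| ≤ D) (P : M) : 0 ≤ q P := by
  by_contra hneg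
  push Not at hneg
  have h1 : ∀ N : ℕ, -D ≤ (N : ℝ) ^ 2 * q P := by
    intro N
    rw [← nsmul_of_par hq N P]
    have a1 := (abs_le.1 (hD (N • P))).1
    have a2 := h0 (N • P)
    linarith
  have hD0 : 0 ≤ D := (abs_nonneg _).trans (hD P)
  obtain ⟨N, hN⟩ := exists_nat_gt (D / (-q P))
  rw [div_lt_iff₀ (by linarith)] at hN
  have h2 := h1 (N + 1)
  push_cast at h2
  have h3 : (N : ℝ) * (-q P) ≤ ((N : ℝ) + 1) ^ 2 * (-q P) := by
    refine mul_le_mul_of_nonneg_right ?_ (by linarith)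
    nlinarith [Nat.cast_nonneg (α := ℝ) N]
  linarith

/-- Northcott -/
theorem northcott {h : M → ℝ} (C : ℝ) (hfin : {P : M | h P ≤ C / 3 + 2}.Finite) :
    ∃ c : ℝ, 0 < c ∧ ∀ q : M → ℝ, (∀ P Q, q (P + Q) + q (P - Q) = 2 * (q P + q Q)) →
      (∀ P, 0 ≤ q P) → (∀ P, |q P - h P / 2| ≤ C / 6) → ∀ P, ¬ IsOfFinAddOrder P → c ≤ q P := by
  classical
  set N : ℕ := hfin.toFinset.card + 1 with hN
  have hN0 : (0 : ℝ) < (N : ℝ) ^ 2 := by positivity
  refine ⟨1 / (N : ℝ) ^ 2, by positivity, ?_⟩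
  intro q hq hq0 hnear P hP
  by_contra hlt
  push Not at hlt
  rw [lt_div_iff₀ hN0] at hlt
  have hmem : ∀ m ∈ Finset.range N, m • P ∈ hfin.toFinset := by
    intro m hm
    rw [Finset.mem_range] at hm
    rw [Set.Finite.mem_toFinset, Set.mem_ofPred_eq]
    have a1 := nsmul_of_par hq m P
    have a2 := (abs_le.1 (hnear (m • P))).1
    have a3 : (m : ℝ) ^ 2 * q P ≤ (N : ℝ) ^ 2 * q P := by
      refine mul_le_mul_of_nonneg_right ?_ (hq0 P)
      have : (m : ℝ) ≤ N := by exact_mod_cast hm.le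
      have h0 : (0 : ℝ) ≤ m := Nat.cast_nonneg m
      nlinarith
    linarith
  have hinj : Set.InjOn (fun m : ℕ => m • P) (Finset.range N : Set ℕ) := by
    intro m _ m' _ h
    exact (injective_nsmul_iff_not_isOfFinAddOrder.2 hP) h
  have hc := Finset.card_le_card_of_injOn (fun m : ℕ => m • P) hmem hinj
  rw [Finset.card_range] at hc
  omega

end abstr

/-- comparison of the two naive heights -/
theorem hX_near {e1 e2 e3 : ℚ} (d : ℚ) (hd : d ≠ 0) (P : Pt (d * e1) (d * e2) (d * e3)) :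
    |hX d P - logHeight P.xRep| ≤ logHeight₁ d := by
  match P with
  | 0 =>
    rw [hX_zero, Affine.Point.xRep_zero, logHeight_swap, ← logHeight₁_eq_logHeight,
      logHeight₁_zero, sub_zero, abs_zero]
    exact zero_le_logHeight₁ _
  | .some x y h =>
    unfold hX
    rw [Affine.Point.xRep_some]
    simp only [Matrix.cons_val_zero, Matrix.cons_val_one, mul_one]
    rw [← logHeight₁_div_eq_logHeight, ← logHeight₁_eq_logHeight]
    have a1 := logHeight₁_mul_le x d⁻¹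
    have a2 := logHeight₁_mul_le (x / d) d
    rw [logHeight₁_inv, ← div_eq_mul_inv] at a1
    rw [div_mul_cancel₀ x hd] at a2
    rw [abs_le]
    constructor <;> linarith

/-- the lower bound for the naive height -/
theorem naive (e : Fin 3 → ℤ) (d : ℤ) (hd : Squarefree d)
    (P : Pt ((d : ℚ) * (e 0 : ℚ)) ((d : ℚ) * (e 1 : ℚ)) ((d : ℚ) * (e 2 : ℚ))) {x y : ℚ}
    (h : (crv ((d : ℚ) * (e 0 : ℚ)) ((d : ℚ) * (e 1 : ℚ)) ((d : ℚ) * (e 2 : ℚ))).toAffine.Nonsingular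
      x y) (hPxy : P = .some x y h) (hy : y ≠ 0) :
    Real.log |(d : ℝ)| ≤ 4 * hX (d : ℚ) P +
      Real.log ((1 + |(e 0 : ℝ)|) * (1 + |(e 1 : ℝ)|) * (1 + |(e 2 : ℝ)|)) := by
  have hd0 : d ≠ 0 := hd.ne_zero
  have hdQ : (d : ℚ) ≠ 0 := by exact_mod_cast hd0
  subst hPxy
  have heq := crv_eqn.1 h.1
  set X : ℚ := x / d with hX'
  have hx : x = d * X := by rw [hX']; field_simp
  set u : ℤ := X.num with hu
  set v : ℕ := X.den with hv
  have hv0 : 0 < v := X.den_pos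
  have hvQ : (v : ℚ) ≠ 0 := by exact_mod_cast hv0.ne'
  have hXuv : X = u / v := (Rat.num_div_den X).symm
  set G : ℤ := v * ((u + e 0 * v) * (u + e 1 * v) * (u + e 2 * v)) with hG
  set z : ℚ := y * v ^ 2 / d with hz
  have hzG : z ^ 2 = ((d * G : ℤ) : ℚ) := by
    rw [hz, div_pow, mul_pow, heq, hx, hXuv, hG]
    push_cast
    field_simp
  have hzint : IsIntegral ℤ z := by
    apply IsIntegral.of_pow (n := 2) (by norm_num)
    rw [hzG]
    exact isIntegral_algebraMap (R := ℤ) (A := ℚ) (x := d * G)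
  obtain ⟨m, hm⟩ := IsIntegrallyClosed.isIntegral_iff.1 hzint
  have hm2 : m ^ 2 = d * G := by
    have h1 : ((m : ℤ) : ℚ) = z := hm
    rw [← h1] at hzG
    exact_mod_cast hzG
  have hz0 : z ≠ 0 := by
    rw [hz]
    exact div_ne_zero (mul_ne_zero hy (pow_ne_zero _ hvQ)) hdQ
  have hm0 : m ≠ 0 := by
    rintro rfl
    apply hz0
    rw [← hm]
    simp
  have hdm : d ∣ m := (hd.dvd_pow_iff_dvd (n := 2) (by norm_num)).1 ⟨G, hm2⟩
  obtain ⟨k, rfl⟩ := hdm
  have hGk : G = d * k ^ 2 := by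
    have : d * (d * k ^ 2) = d * G := by rw [← hm2]; ring
    exact (mul_left_cancel₀ hd0 this).symm
  have hk0 : k ≠ 0 := by
    rintro rfl
    simp at hm0
  have hdG : |(d : ℝ)| ≤ |(G : ℝ)| := by
    rw [hGk]
    push_cast
    rw [abs_mul]
    have h1 : (1 : ℝ) ≤ |(k : ℝ) ^ 2| := by
      rw [abs_of_nonneg (sq_nonneg _)]
      have h2 : (1 : ℤ) ≤ k ^ 2 := by
        have := Int.one_le_abs hk0
        nlinarith [sq_abs k]
      exact_mod_cast h2
    nlinarith [abs_nonneg (d : ℝ)]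
  -- the height
  have hhX : hX (d : ℚ) (Affine.Point.some x y h : Pt ((d : ℚ) * (e 0 : ℚ)) ((d : ℚ) * (e 1 : ℚ))
      ((d : ℚ) * (e 2 : ℚ))) = Real.log (max u.natAbs v : ℕ) := by
    unfold hX
    rw [Affine.Point.xRep_some]
    simp only [Matrix.cons_val_zero, Matrix.cons_val_one, mul_one]
    rw [← logHeight₁_div_eq_logHeight, ← hX', Rat.logHeight₁_eq_log_max]
  set t : ℝ := ((max u.natAbs v : ℕ) : ℝ) with ht
  have hvt : (v : ℝ) ≤ t := by
    rw [ht]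
    exact_mod_cast le_max_right _ _
  have hut : |(u : ℝ)| ≤ t := by
    rw [ht]
    have h1 : |(u : ℝ)| = (u.natAbs : ℝ) := by
      rw [Nat.cast_natAbs]
      push_cast
      rfl
    rw [h1]
    exact_mod_cast le_max_left _ _
  have ht1 : 1 ≤ t := by
    have : (1 : ℝ) ≤ v := by exact_mod_cast hv0
    linarith
  have ht0 : 0 < t := by linarith
  have hfac : ∀ i, |(u : ℝ) + e i * v| ≤ (1 + |(e i : ℝ)|) * t := by
    intro i
    refine (abs_add_le _ _).trans ?_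
    rw [abs_mul, Nat.abs_cast]
    have := mul_le_mul_of_nonneg_left hvt (abs_nonneg (e i : ℝ))
    nlinarith
  have hGt : |(G : ℝ)| ≤ t ^ 4 * ((1 + |(e 0 : ℝ)|) * (1 + |(e 1 : ℝ)|) * (1 + |(e 2 : ℝ)|)) := by
    rw [hG]
    push_cast
    rw [abs_mul, abs_mul, abs_mul, Nat.abs_cast]
    have b0 := hfac 0
    have b1 := hfac 1
    have b2 := hfac 2
    calc (v : ℝ) * (|(u : ℝ) + e 0 * v| * |(u : ℝ) + e 1 * v| * |(u : ℝ) + e 2 * v|)
        ≤ t * ((1 + |(e 0 : ℝ)|) * t * ((1 + |(e 1 : ℝ)|) * t) * ((1 + |(e 2 : ℝ)|) * t)) := by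
          gcongr
      _ = _ := by ring
  have hpos : 0 < (1 + |(e 0 : ℝ)|) * (1 + |(e 1 : ℝ)|) * (1 + |(e 2 : ℝ)|) := by positivity
  have hdpos : 0 < |(d : ℝ)| := abs_pos.2 (by exact_mod_cast hd0)
  rw [hhX]
  calc Real.log |(d : ℝ)| ≤ Real.log (t ^ 4 *
        ((1 + |(e 0 : ℝ)|) * (1 + |(e 1 : ℝ)|) * (1 + |(e 2 : ℝ)|))) :=
        Real.log_le_log hdpos (hdG.trans hGt)
    _ = _ := by
        rw [Real.log_mul (by positivity) hpos.ne', Real.log_pow]
        norm_num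

end Pool.Agent.W999.LS
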