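import Pool.Agent.W999.LS.Lang

/-!
# Lang's lower bound for quadratic twists, and the powers
-/

set_option autoImplicit false

open WeierstrassCurve Height
open Pool.Agent.H437R2.Man.MW

namespace Pool.Agent.W999.LS

/-- points of finite order two -/
theorem y_ne_zero {e1 e2 e3 : ℚ} {x y : ℚ} (h : (crv e1 e2 e3).toAffine.Nonsingular x y)
    (hP : ¬ IsOfFinAddOrder (Affine.Point.some x y h : Pt e1 e2 e3)) : y ≠ 0 := by
  rintro rfl
  apply hP
  rw [isOfFinAddOrder_iff_nsmul_eq_zero]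
  refine ⟨2, by norm_num, ?_⟩
  rw [two_nsmul]
  apply Affine.Point.add_self_of_Y_eq
  simp [Affine.negY, crv]

/-- **Lang's bound for the quadratic twists** -/
theorem lang_twist (e : Fin 3 → ℤ) (he : Function.Injective e) : ∃ c : ℝ, 0 < c ∧
    ∀ d : ℤ, Squarefree d → ∀ q : (tw e d).toAffine.Point → ℝ, IsNT (tw e d) q →
      (∀ P, 0 ≤ q P) ∧ ∀ P, ¬ IsOfFinAddOrder P → c * max (Real.log |(d : ℝ)|) 1 ≤ q P := by
  have e01 : (e 0 : ℚ) ≠ e 1 := by
    intro h
    have := he (show e 0 = e 1 by exact_mod_cast h)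
    exact absurd this (by decide)
  have e02 : (e 0 : ℚ) ≠ e 2 := by
    intro h
    have := he (show e 0 = e 2 by exact_mod_cast h)
    exact absurd this (by decide)
  have e12 : (e 1 : ℚ) ≠ e 2 := by
    intro h
    have := he (show e 1 = e 2 by exact_mod_cast h)
    exact absurd this (by decide)
  obtain ⟨C, hC0, hC⟩ := par_unif e01 e02 e12
  -- all Néron-Tate heights are near the scaled height
  have near : ∀ d : ℤ, Squarefree d → ∀ q : (tw e d).toAffine.Point → ℝ, IsNT (tw e d) q →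
      (∀ P, |q P - hX (d : ℚ) P / 2| ≤ C / 6) ∧ ∀ P, 0 ≤ q P := by
    intro d hd q hq
    have hdQ : (d : ℚ) ≠ 0 := by exact_mod_cast hd.ne_zero
    obtain ⟨hq1, D, hD⟩ := hq
    have h1 : ∀ P, |q P - hX (d : ℚ) P / 2| ≤ D + logHeight₁ (d : ℚ) / 2 := by
      intro (P : Pt ((d : ℚ) * (e 0 : ℚ)) ((d : ℚ) * (e 1 : ℚ)) ((d : ℚ) * (e 2 : ℚ)))
      have a1 : |q P - logHeight P.xRep / 2| ≤ D := hD P
      have a2 := hX_near (d : ℚ) hdQ P
      rw [abs_le] at a1 a2 ⊢
      constructor <;> linarith [a1.1, a1.2, a2.1, a2.2]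
    have h2 := near_unif (h := fun P => hX (d : ℚ) P) hq1 C _ (hX_zero _) (hC d hdQ) h1
    exact ⟨h2, nonneg_of_near hq1 _ (fun P => hX_nonneg _ P) h2⟩
  -- small twists
  have small : ∀ d : ℤ, Squarefree d → ∃ c : ℝ, 0 < c ∧
      ∀ q : (tw e d).toAffine.Point → ℝ, IsNT (tw e d) q → ∀ P, ¬ IsOfFinAddOrder P → c ≤ q P := by
    intro d hd
    have hdQ : (d : ℚ) ≠ 0 := by exact_mod_cast hd.ne_zero
    have hfin : {P : Pt ((d : ℚ) * (e 0 : ℚ)) ((d : ℚ) * (e 1 : ℚ)) ((d : ℚ) * (e 2 : ℚ)) |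
        hX (d : ℚ) P ≤ C / 3 + 2}.Finite := by
      refine (finite_ht (C / 3 + 2 + logHeight₁ (d : ℚ))).subset ?_
      intro P hP
      have hP' : hX (d : ℚ) P ≤ C / 3 + 2 := hP
      have a2 := (abs_le.1 (hX_near (d : ℚ) hdQ P)).1
      show logHeight P.xRep ≤ _
      linarith
    obtain ⟨c, hc0, hc⟩ := northcott (h := fun P => hX (d : ℚ) P) C hfin
    refine ⟨c, hc0, fun q hq P hP => ?_⟩
    obtain ⟨h1, h2⟩ := near d hd q hq
    exact hc q hq.1 h2 h1 P hP
  -- the naive bound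
  set E : ℝ := Real.log ((1 + |(e 0 : ℝ)|) * (1 + |(e 1 : ℝ)|) * (1 + |(e 2 : ℝ)|)) with hE
  have big : ∀ d : ℤ, Squarefree d → ∀ q : (tw e d).toAffine.Point → ℝ, IsNT (tw e d) q →
      ∀ P, ¬ IsOfFinAddOrder P → Real.log |(d : ℝ)| / 8 - E / 8 - C / 6 ≤ q P := by
    intro d hd q hq (P : Pt ((d : ℚ) * (e 0 : ℚ)) ((d : ℚ) * (e 1 : ℚ)) ((d : ℚ) * (e 2 : ℚ))) hP
    have h1 := (abs_le.1 ((near d hd q hq).1 P)).1
    have hcases : P = 0 ∨ ∃ x y h, P = Affine.Point.some x y h := by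
      cases P with
      | zero => exact Or.inl rfl
      | some x y h => exact Or.inr ⟨x, y, h, rfl⟩
    rcases hcases with h0 | ⟨x, y, h, hPe⟩
    · exfalso
      apply hP
      rw [h0]
      exact isOfFinAddOrder_iff_nsmul_eq_zero.2 ⟨1, one_pos, one_nsmul _⟩
    · have hy : y ≠ 0 := by
        apply y_ne_zero h
        rw [← hPe]
        exact hP
      have h2 := naive e d hd P h hPe hy
      linarith
  -- the finitely many small twists together
  obtain ⟨N, hN⟩ := exists_nat_gt (Real.exp (2 * E + 8 / 3 * C + 1))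
  have hcomb : ∃ c : ℝ, 0 < c ∧ ∀ d ∈ Finset.Icc (-(N : ℤ)) N, Squarefree d →
      ∀ q : (tw e d).toAffine.Point → ℝ, IsNT (tw e d) q → ∀ P, ¬ IsOfFinAddOrder P → c ≤ q P := by
    classical
    choose! cc hcc using small
    have : ∀ s : Finset ℤ, ∃ c : ℝ, 0 < c ∧ ∀ d ∈ s, Squarefree d → c ≤ cc d := by
      intro s
      induction s using Finset.induction_on with
      | empty => exact ⟨1, one_pos, fun d hd => absurd hd (Finset.notMem_empty d)⟩
      | insert a s ha ih =>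
        obtain ⟨c, hc0, hc⟩ := ih
        by_cases hsq : Squarefree a
        · refine ⟨min c (cc a), lt_min hc0 (hcc a hsq).1, fun d hd hdsq => ?_⟩
          rcases Finset.mem_insert.1 hd with rfl | hd
          · exact min_le_right _ _
          · exact (min_le_left _ _).trans (hc d hd hdsq)
        · refine ⟨c, hc0, fun d hd hdsq => ?_⟩
          rcases Finset.mem_insert.1 hd with rfl | hd
          · exact absurd hdsq hsq
          · exact hc d hd hdsq
    obtain ⟨c, hc0, hc⟩ := this (Finset.Icc (-(N : ℤ)) N)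
    exact ⟨c, hc0, fun d hd hdsq q hq P hP => (hc d hd hdsq).trans ((hcc d hdsq).2 q hq P hP)⟩
  obtain ⟨c1, hc1, hsmall⟩ := hcomb
  have hN0 : (0 : ℝ) < N := (Real.exp_pos _).trans hN
  have hL : 0 < max (Real.log N) 1 := lt_max_of_lt_right one_pos
  refine ⟨min (1 / 16) (c1 / max (Real.log N) 1), lt_min (by norm_num) (by positivity), ?_⟩
  intro d hd q hq
  refine ⟨(near d hd q hq).2, fun P hP => ?_⟩
  have hM : 0 < max (Real.log |(d : ℝ)|) 1 := lt_max_of_lt_right one_pos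
  by_cases hdN : |d| ≤ N
  · have h1 := hsmall d (Finset.mem_Icc.2 (abs_le.1 hdN)) hd q hq P hP
    have h2 : max (Real.log |(d : ℝ)|) 1 ≤ max (Real.log N) 1 := by
      apply max_le_max _ le_rfl
      have hd0 : (0 : ℝ) < |(d : ℝ)| := abs_pos.2 (by exact_mod_cast hd.ne_zero)
      refine Real.log_le_log hd0 ?_
      exact_mod_cast hdN
    calc min (1 / 16) (c1 / max (Real.log N) 1) * max (Real.log |(d : ℝ)|) 1
        ≤ c1 / max (Real.log N) 1 * max (Real.log N) 1 :=
          mul_le_mul (min_le_right _ _) h2 hM.le (by positivity)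
      _ = c1 := div_mul_cancel₀ _ hL.ne'
      _ ≤ q P := h1
  · push Not at hdN
    have h1 := big d hd q hq P hP
    have hdN' : (N : ℝ) < |(d : ℝ)| := by exact_mod_cast hdN
    have h2 : 2 * E + 8 / 3 * C + 1 ≤ Real.log |(d : ℝ)| := by
      rw [Real.le_log_iff_exp_le (hN0.trans hdN')]
      exact (hN.trans hdN').le
    have hE0 : 0 ≤ E := by
      rw [hE]
      apply Real.log_nonneg
      have b0 := abs_nonneg (e 0 : ℝ)
      have b1 := abs_nonneg (e 1 : ℝ)
      have b2 := abs_nonneg (e 2 : ℝ)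
      have c0 : 1 ≤ 1 + |(e 0 : ℝ)| := by linarith
      have c1 : 1 ≤ 1 + |(e 1 : ℝ)| := by linarith
      have c2 : 1 ≤ 1 + |(e 2 : ℝ)| := by linarith
      exact one_le_mul_of_one_le_of_one_le (one_le_mul_of_one_le_of_one_le c0 c1) c2
    have h3 : max (Real.log |(d : ℝ)|) 1 = Real.log |(d : ℝ)| := max_eq_left (by linarith)
    rw [h3]
    have h4 : 0 ≤ Real.log |(d : ℝ)| := by linarith
    calc min (1 / 16) (c1 / max (Real.log N) 1) * Real.log |(d : ℝ)|
        ≤ 1 / 16 * Real.log |(d : ℝ)| := mul_le_mul_of_nonneg_right (min_le_left _ _) h4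
      _ ≤ q P := by linarith

/-- **the Lang-Silverman bound for products of powers of twists, all polarizations** -/
theorem twists (S : Finset (Fin 3 → ℤ)) (hS : ∀ e ∈ S, Function.Injective e) (g : ℕ) (C : ℝ) :
    ∃ c : ℝ, 0 < c ∧ ∀ (r : ℕ) (n : Fin r → ℕ) (e : Fin r → Fin 3 → ℤ) (d : Fin r → ℤ)
      (q : ∀ j, (tw (e j) (d j)).toAffine.Point → ℝ) (f : Fin r → ℝ)
      (H : ∀ j, Matrix (Fin (n j)) (Fin (n j)) ℤ)
      (P : ∀ j, Fin (n j) → (tw (e j) (d j)).toAffine.Point),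
      1 ≤ r → ∑ j, n j = g → (∀ j, e j ∈ S) → (∀ j, Squarefree (d j)) →
      (∀ j, IsNT (tw (e j) (d j)) (q j)) → (∀ j, f j ≤ Real.log |(d j : ℝ)| / 2 + C) →
      (∀ j, ((H j).map (Int.cast : ℤ → ℝ)).PosDef) → (∀ j, ∃ k, ¬ IsOfFinAddOrder (P j k)) →
      c * max (∑ j, n j * f j) 1 ≤ height q H P := by
  classical
  have hall : ∃ c : ℝ, 0 < c ∧ ∀ e ∈ S, ∀ d : ℤ, Squarefree d →
      ∀ q : (tw e d).toAffine.Point → ℝ, IsNT (tw e d) q →
      (∀ P, 0 ≤ q P) ∧ ∀ P, ¬ IsOfFinAddOrder P → c * max (Real.log |(d : ℝ)|) 1 ≤ q P := by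
    clear g C
    induction S using Finset.induction_on with
    | empty => exact ⟨1, one_pos, fun e he => absurd he (Finset.notMem_empty e)⟩
    | insert a S ha ih =>
      obtain ⟨c, hc0, hc⟩ := ih (fun e he => hS e (Finset.mem_insert_of_mem he))
      obtain ⟨c', hc0', hc'⟩ := lang_twist a (hS a (Finset.mem_insert_self _ _))
      refine ⟨min c c', lt_min hc0 hc0', fun e he d hd q hq => ?_⟩
      have hM : 0 ≤ max (Real.log |(d : ℝ)|) 1 := le_max_of_le_right zero_le_one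
      rcases Finset.mem_insert.1 he with rfl | he
      · obtain ⟨h1, h2⟩ := hc' d hd q hq
        exact ⟨h1, fun P hP => (mul_le_mul_of_nonneg_right (min_le_right _ _) hM).trans (h2 P hP)⟩
      · obtain ⟨h1, h2⟩ := hc e he d hd q hq
        exact ⟨h1, fun P hP => (mul_le_mul_of_nonneg_right (min_le_left _ _) hM).trans (h2 P hP)⟩
  obtain ⟨c, hc0, hc⟩ := hall
  refine ⟨c / (1 + |C|) / (g + 1) * (3 / 4 : ℝ) ^ (g - 1), by positivity, ?_⟩
  intro r n e d q f H P hr hng heS hd hq hf hH hP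
  have hn : ∀ j, 1 ≤ n j := by
    intro j
    obtain ⟨k, -⟩ := hP j
    have := k.2
    omega
  set μ : Fin r → ℝ := fun j => c * max (Real.log |(d j : ℝ)|) 1 with hμ
  have hμ0 : ∀ j, 0 ≤ μ j := fun j => mul_nonneg hc0.le (le_max_of_le_right zero_le_one)
  have hblock : ∑ j, (3 / 4 : ℝ) ^ (n j - 1) * μ j ≤ height q H P := by
    unfold height
    refine Finset.sum_le_sum fun j _ => ?_
    obtain ⟨h1, h2⟩ := hc (e j) (heS j) (d j) (hd j) (q j) (hq j)
    exact block ⟨h1, (hq j).1⟩ (hH j) (μ j) (hμ0 j) h2 (P j) (hP j)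
  have hfμ : ∀ j, c / (1 + |C|) * max (f j) 1 ≤ μ j := by
    intro j
    set L := max (Real.log |(d j : ℝ)|) 1 with hL
    have hL1 : 1 ≤ L := le_max_right _ _
    have hLl : Real.log |(d j : ℝ)| ≤ L := le_max_left _ _
    have hC0 := abs_nonneg C
    have hC1 := le_abs_self C
    have h1 : max (f j) 1 ≤ (1 + |C|) * L := by
      apply max_le
      · refine (hf j).trans ?_
        nlinarith
      · nlinarith
    have h2 : 0 < 1 + |C| := by linarith
    calc c / (1 + |C|) * max (f j) 1 ≤ c / (1 + |C|) * ((1 + |C|) * L) :=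
          mul_le_mul_of_nonneg_left h1 (by positivity)
      _ = c * L := by field_simp
  have hnum := numeric r n hn f μ (c / (1 + |C|)) (by positivity) hr hfμ
  rw [hng] at hnum
  have hg1 : 1 ≤ g := by
    rw [← hng]
    exact (hn ⟨0, hr⟩).trans (Finset.single_le_sum (f := n) (fun _ _ => Nat.zero_le _)
      (Finset.mem_univ _))
  have hg0 : (0 : ℝ) < g := by exact_mod_cast hg1
  refine le_trans ?_ (hnum.trans hblock)
  have hmx : 0 ≤ max (∑ j, (n j : ℝ) * f j) 1 := le_max_of_le_right zero_le_one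
  refine mul_le_mul_of_nonneg_right (mul_le_mul_of_nonneg_right ?_ (by positivity)) hmx
  exact div_le_div_of_nonneg_left (by positivity) hg0 (by linarith)

end Pool.Agent.W999.LS
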