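import Mathlib
import Pool.Agent.H437R2.Man.MWCan

/-!
# Minimum of the tensor product of a positive definite form on `ℤⁿ` and a height form

`(3/4)^(n-1) * min h * min q ≤ ∑ h(e_i, e_j) ⟨P_i, P_j⟩` for all `P ∈ Aⁿ` which are not in the radical.
-/

set_option autoImplicit false

namespace Pool.Agent.W999.LS

open Finset Filter Topology

section basis

/-- every nonzero vector is a multiple of the first vector of a basis -/
theorem exists_basis {n : ℕ} (v : Fin (n + 1) → ℤ) (hv : v ≠ 0) :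
    ∃ (b : Module.Basis (Fin (n + 1)) ℤ (Fin (n + 1) → ℤ)) (a : ℤ), a ≠ 0 ∧ v = a • b 0 := by
  obtain ⟨k, snf⟩ := Submodule.smithNormalForm (Pi.basisFun ℤ (Fin (n + 1))) (ℤ ∙ v)
  have hmem : v ∈ (ℤ ∙ v) := Submodule.mem_span_singleton_self v
  have hk : Nonempty (Fin k) := by
    by_contra hne
    rw [not_nonempty_iff] at hne
    have h1 : (⟨v, hmem⟩ : (ℤ ∙ v)) = 0 := by
      rw [← snf.bN.sum_repr ⟨v, hmem⟩]
      exact Finset.sum_of_isEmpty _
    exact hv (congrArg Subtype.val h1)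
  obtain ⟨i⟩ := hk
  obtain ⟨d, hd⟩ := Submodule.mem_span_singleton.1 (snf.bN i).2
  have h2 : snf.bN i = d • (⟨v, hmem⟩ : (ℤ ∙ v)) := Subtype.ext hd.symm
  have h3 : (1 : ℤ) = d * snf.bN.repr ⟨v, hmem⟩ i := by
    have h4 : snf.bN.repr (snf.bN i) i = snf.bN.repr (d • (⟨v, hmem⟩ : (ℤ ∙ v))) i := by rw [h2]
    rw [Module.Basis.repr_self, Finsupp.single_eq_same, map_smul, Finsupp.smul_apply,
      smul_eq_mul] at h4
    exact h4
  set c0 := snf.bN.repr ⟨v, hmem⟩ i with hc0
  have h5 : v = (c0 * snf.a i) • snf.bM (snf.f i) := by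
    have h6 : ((snf.bN i : (ℤ ∙ v)) : Fin (n + 1) → ℤ) = snf.a i • snf.bM (snf.f i) := snf.snf i
    rw [mul_smul, ← h6, ← hd, ← mul_smul, mul_comm, ← h3, one_smul]
  refine ⟨snf.bM.reindex (Equiv.swap 0 (snf.f i)), c0 * snf.a i, ?_, ?_⟩
  · rintro h
    rw [h, zero_smul] at h5
    exact hv h5
  · rw [Module.Basis.reindex_apply, Equiv.symm_swap, Equiv.swap_apply_left]
    exact h5

end basis

section form

variable {A : Type} [AddCommGroup A] (B : A →+ A →+ ℝ)

theorem expand {n m : ℕ} (c : Fin n → ℤ) (d : Fin m → ℤ) (P : Fin n → A) (Q : Fin m → A) :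
    B (∑ i, c i • P i) (∑ j, d j • Q j) = ∑ i, ∑ j, (c i : ℝ) * (d j : ℝ) * B (P i) (Q j) := by
  have h1 : B (∑ i, c i • P i) = ∑ i, c i • B (P i) := by
    rw [map_sum]
    exact Finset.sum_congr rfl fun i _ => map_zsmul _ _ _
  rw [h1, AddMonoidHom.finsetSum_apply]
  refine Finset.sum_congr rfl fun i _ => ?_
  rw [AddMonoidHom.smul_apply, map_sum, Finset.smul_sum]
  refine Finset.sum_congr rfl fun j _ => ?_
  rw [map_zsmul, zsmul_eq_mul, zsmul_eq_mul]
  ring

theorem real_nonneg (hs : ∀ P Q, B P Q = B Q P) (hB : ∀ P, 0 ≤ B P P) {n : ℕ} (P : Fin n → A)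
    (x : Fin n → ℝ) : 0 ≤ ∑ i, ∑ j, x i * x j * B (P i) (P j) := by
  have h1 := Pool.Agent.H437R2.Man.MW.posSemidef_of_int (fun i j => B (P i) (P j))
    (fun i j => hs _ _) (by
      intro c
      have h2 := hB (∑ i, c i • P i)
      rw [expand] at h2
      exact h2)
  have h2 := h1.dotProduct_mulVec_nonneg x
  refine h2.trans (le_of_eq ?_)
  simp only [dotProduct, Matrix.mulVec, star_trivial]
  refine Finset.sum_congr rfl fun i _ => ?_
  rw [Finset.mul_sum]
  refine Finset.sum_congr rfl fun j _ => ?_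
  ring

/-- elements of height zero are in the radical -/
theorem radical (hs : ∀ P Q, B P Q = B Q P) (hB : ∀ P, 0 ≤ B P P) {P : A} (hP : B P P = 0)
    (Q : A) : B P Q = 0 := by
  by_contra hne
  have key : ∀ k : ℤ, 0 ≤ 2 * (k : ℝ) * B P Q + B Q Q := by
    intro k
    have h1 := hB (k • P + Q)
    simp only [map_add, map_zsmul, AddMonoidHom.add_apply, AddMonoidHom.smul_apply,
      zsmul_eq_mul] at h1
    rw [hP, hs Q P] at h1
    linarith
  rcases lt_or_gt_of_ne hne with h | h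
  · obtain ⟨k, hk⟩ := exists_nat_gt (B Q Q / (-(2 * B P Q)))
    rw [div_lt_iff₀ (by linarith)] at hk
    have := key k
    push_cast at this
    nlinarith
  · obtain ⟨k, hk⟩ := exists_nat_gt (B Q Q / (2 * B P Q))
    rw [div_lt_iff₀ (by linarith)] at hk
    have := key (-k)
    push_cast at this
    nlinarith

/-- the form on `ℤⁿ ⊗ A` -/
def T {n : ℕ} (h : (Fin n → ℤ) →+ (Fin n → ℤ) →+ ℝ) (b : Fin n → Fin n → ℤ) (P : Fin n → A) : ℝ :=
  ∑ i, ∑ j, h (b i) (b j) * B (P i) (P j)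

/-- change of basis -/
theorem change {n : ℕ} (h : (Fin n → ℤ) →+ (Fin n → ℤ) →+ ℝ)
    (b : Module.Basis (Fin n) ℤ (Fin n → ℤ)) (P : Fin n → A) :
    T B h (fun i => Pi.single i 1) P =
      T B h b (fun k => ∑ i, b.repr (Pi.single i 1) k • P i) := by
  unfold T
  have h1 : ∀ i : Fin n, (Pi.single i 1 : Fin n → ℤ) = ∑ k, b.repr (Pi.single i 1) k • b k :=
    fun i => (b.sum_repr _).symm
  set r : Fin n → Fin n → ℤ := fun i k => b.repr (Pi.single i 1) k with hr
  have hL : ∀ i j : Fin n, h (Pi.single i 1) (Pi.single j 1) =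
      ∑ k, ∑ l, (r i k : ℝ) * (r j l : ℝ) * h (b k) (b l) := by
    intro i j
    conv_lhs => rw [h1 i, h1 j]
    exact expand h _ _ _ _
  have hR : ∀ k l : Fin n, B (∑ i, r i k • P i) (∑ i, r i l • P i) =
      ∑ i, ∑ j, (r i k : ℝ) * (r j l : ℝ) * B (P i) (P j) := by
    intro k l
    exact expand B _ _ _ _
  show ∑ i, ∑ j, h (Pi.single i 1) (Pi.single j 1) * B (P i) (P j) =
    ∑ k, ∑ l, h (b k) (b l) * B (∑ i, r i k • P i) (∑ i, r i l • P i)
  simp only [hL, hR, Finset.sum_mul, Finset.mul_sum]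
  -- reorder the sums
  calc ∑ i, ∑ j, ∑ k, ∑ l, (r i k : ℝ) * (r j l : ℝ) * h (b k) (b l) * B (P i) (P j)
      = ∑ i, ∑ k, ∑ j, ∑ l, (r i k : ℝ) * (r j l : ℝ) * h (b k) (b l) * B (P i) (P j) :=
        Finset.sum_congr rfl fun i _ => Finset.sum_comm
    _ = ∑ k, ∑ i, ∑ j, ∑ l, (r i k : ℝ) * (r j l : ℝ) * h (b k) (b l) * B (P i) (P j) :=
        Finset.sum_comm
    _ = ∑ k, ∑ i, ∑ l, ∑ j, (r i k : ℝ) * (r j l : ℝ) * h (b k) (b l) * B (P i) (P j) :=
        Finset.sum_congr rfl fun k _ => Finset.sum_congr rfl fun i _ => Finset.sum_comm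
    _ = ∑ k, ∑ l, ∑ i, ∑ j, (r i k : ℝ) * (r j l : ℝ) * h (b k) (b l) * B (P i) (P j) :=
        Finset.sum_congr rfl fun k _ => Finset.sum_comm
    _ = _ := by
        refine Finset.sum_congr rfl fun k _ => Finset.sum_congr rfl fun l _ =>
          Finset.sum_congr rfl fun i _ => Finset.sum_congr rfl fun j _ => ?_
        ring

/-- the new points are not all in the radical -/
theorem change_ne (hs : ∀ P Q, B P Q = B Q P) (hB : ∀ P, 0 ≤ B P P) {n : ℕ}
    (b : Module.Basis (Fin n) ℤ (Fin n → ℤ)) (P : Fin n → A) (hP : ∃ i, B (P i) (P i) ≠ 0) :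
    ∃ k, B (∑ i, b.repr (Pi.single i 1) k • P i) (∑ i, b.repr (Pi.single i 1) k • P i) ≠ 0 := by
  by_contra hne
  push Not at hne
  obtain ⟨i, hi⟩ := hP
  apply hi
  set R : Fin n → A := fun k => ∑ j, b.repr (Pi.single j 1) k • P j with hR
  have h1 : P i = ∑ k, (b k i) • R k := by
    simp only [hR, Finset.smul_sum, ← mul_smul]
    rw [Finset.sum_comm]
    simp only [← Finset.sum_smul]
    have h2 : ∀ j : Fin n, ∑ k, b k i * b.repr (Pi.single j 1) k = if j = i then 1 else 0 := by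
      intro j
      have h3 := congrFun (b.sum_repr (Pi.single j 1)) i
      rw [Finset.sum_apply] at h3
      simp only [Pi.smul_apply, smul_eq_mul] at h3
      rw [Pi.single_apply] at h3
      rw [show (if j = i then (1 : ℤ) else 0) = if i = j then 1 else 0 by
        simp only [eq_comm], ← h3]
      exact Finset.sum_congr rfl fun k _ => mul_comm _ _
    simp only [h2, ite_smul, one_smul, zero_smul]
    rw [Finset.sum_ite_eq' Finset.univ i, if_pos (Finset.mem_univ i)]
  have h4 : B (P i) (P i) = ∑ k, (b k i : ℝ) * B (R k) (P i) := by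
    have h5 : B (P i) (P i) = B (∑ k, b k i • R k) (P i) := congrArg (fun x => B x (P i)) h1
    have h6 : B (∑ k, b k i • R k) = ∑ k, b k i • B (R k) := by
      rw [map_sum]
      exact Finset.sum_congr rfl fun k _ => map_zsmul _ _ _
    rw [h5, h6, AddMonoidHom.finsetSum_apply]
    refine Finset.sum_congr rfl fun k _ => ?_
    rw [AddMonoidHom.smul_apply, zsmul_eq_mul]
  rw [h4]
  exact Finset.sum_eq_zero fun k _ => by rw [radical B hs hB (hne k), mul_zero]

/-- the Schur complement -/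
noncomputable def schur {n : ℕ} (h : (Fin (n + 1) → ℤ) →+ (Fin (n + 1) → ℤ) →+ ℝ)
    (ι : (Fin n → ℤ) →+ (Fin (n + 1) → ℤ)) (w : Fin (n + 1) → ℤ) :
    (Fin n → ℤ) →+ (Fin n → ℤ) →+ ℝ :=
  AddMonoidHom.mk' (fun x => AddMonoidHom.mk'
    (fun y => h (ι x) (ι y) - h (ι x) w * h w (ι y) / h w w)
    (fun y z => by simp only [map_add]; ring))
    (fun x y => AddMonoidHom.ext fun z => by
      simp only [AddMonoidHom.mk'_apply, AddMonoidHom.add_apply, map_add]
      ring)

theorem schur_apply {n : ℕ} (h : (Fin (n + 1) → ℤ) →+ (Fin (n + 1) → ℤ) →+ ℝ)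
    (ι : (Fin n → ℤ) →+ (Fin (n + 1) → ℤ)) (w : Fin (n + 1) → ℤ) (x y : Fin n → ℤ) :
    schur h ι w x y = h (ι x) (ι y) - h (ι x) w * h w (ι y) / h w w := rfl

/-- one step of the reduction -/
theorem step {n : ℕ} (h : (Fin (n + 1) → ℤ) →+ (Fin (n + 1) → ℤ) →+ ℝ) (hsym : ∀ x y, h x y = h y x)
    (b : Module.Basis (Fin (n + 1)) ℤ (Fin (n + 1) → ℤ)) (hw : 0 < h (b 0) (b 0)) (c I : ℝ)
    (hc : h (b 0) (b 0) ≤ 4 * (1 - c) * I) (hI : ∀ x, x ≠ 0 → I ≤ h x x) :
    ∃ (ι : (Fin n → ℤ) →+ (Fin (n + 1) → ℤ)), (∀ i, ι (Pi.single i 1) = b i.succ) ∧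
      ∀ x, x ≠ 0 → c * I ≤ schur h ι (b 0) x x := by
  let ι : (Fin n → ℤ) →+ (Fin (n + 1) → ℤ) :=
    (Fintype.linearCombination ℤ (fun i : Fin n => b i.succ)).toAddMonoidHom
  have hι : ∀ x, ι x = ∑ i, x i • b i.succ := fun x => Fintype.linearCombination_apply ℤ _ x
  refine ⟨ι, ?_, ?_⟩
  · intro i
    rw [hι]
    rw [Finset.sum_eq_single i]
    · simp
    · intro j _ hj
      rw [Pi.single_eq_of_ne hj, zero_smul]
    · intro h1
      exact absurd (Finset.mem_univ i) h1
  · intro x hx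
    set w := b 0 with hwdef
    set k : ℤ := round (h (ι x) w / h w w) with hk
    have hy : ι x - k • w ≠ 0 := by
      intro h0
      apply hx
      funext i
      have h1 : b.repr (ι x - k • w) i.succ = 0 := by rw [h0]; simp
      rw [map_sub, map_smul, Finsupp.sub_apply, Finsupp.smul_apply, hwdef, Module.Basis.repr_self,
        Finsupp.single_eq_of_ne (Fin.succ_ne_zero i), smul_zero, sub_zero, hι, map_sum,
        Finsupp.finsetSum_apply] at h1
      rw [Finset.sum_eq_single i] at h1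
      · rw [map_smul, Finsupp.smul_apply, Module.Basis.repr_self, Finsupp.single_eq_same,
          smul_eq_mul, mul_one] at h1
        exact h1
      · intro j _ hj
        rw [map_smul, Finsupp.smul_apply, Module.Basis.repr_self,
          Finsupp.single_eq_of_ne (fun h2 => hj (Fin.succ_injective _ h2.symm)), smul_zero]
      · intro h2
        exact absurd (Finset.mem_univ i) h2
    have h1 := hI _ hy
    have h2 : h (ι x - k • w) (ι x - k • w) = schur h ι w x x +
        h w w * (h (ι x) w / h w w - k) ^ 2 := by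
      rw [schur_apply]
      simp only [map_sub, AddMonoidHom.sub_apply]
      have e1 : h (k • w) = k • h w := map_zsmul _ _ _
      have e2 : ∀ z, h z (k • w) = k • h z w := fun z => map_zsmul _ _ _
      rw [e1, e2 (ι x)]
      simp only [AddMonoidHom.smul_apply]
      rw [e2 w]
      simp only [zsmul_eq_mul]
      rw [hsym w (ι x)]
      field_simp
      ring
    have h3 : |h (ι x) w / h w w - k| ≤ 1 / 2 := abs_sub_round _
    have h4 : (h (ι x) w / h w w - k) ^ 2 ≤ 1 / 4 := by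
      rw [← sq_abs]
      nlinarith [abs_nonneg (h (ι x) w / h w w - k)]
    have h5 : h w w * (h (ι x) w / h w w - k) ^ 2 ≤ h w w * (1 / 4) :=
      mul_le_mul_of_nonneg_left h4 hw.le
    rw [h2] at h1
    linarith

/-- **the minimum of the tensor product** (with a parameter `c < 3/4`) -/
theorem tensor_min_aux (hs : ∀ P Q, B P Q = B Q P) (hB : ∀ P, 0 ≤ B P P) (μ : ℝ) (hμ : 0 ≤ μ)
    (hmin : ∀ P, B P P ≠ 0 → μ ≤ B P P) (c : ℝ) (hc0 : 0 < c) (hc : c < 3 / 4) : ∀ (n : ℕ)
    (h : (Fin n → ℤ) →+ (Fin n → ℤ) →+ ℝ), (∀ x y, h x y = h y x) → ∀ m : ℝ, 0 < m →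
    (∀ x, x ≠ 0 → m ≤ h x x) → ∀ P : Fin n → A, (∃ i, B (P i) (P i) ≠ 0) →
    c ^ (n - 1) * m * μ ≤ T B h (fun i => Pi.single i 1) P := by
  intro n
  induction n with
  | zero =>
    intro h hsym m hm hh P hP
    obtain ⟨i, -⟩ := hP
    exact i.elim0
  | succ n ih =>
    intro h hsym m hm hh P hP
    -- a nearly minimal vector
    set S : Set ℝ := {r | ∃ x : Fin (n + 1) → ℤ, x ≠ 0 ∧ r = h x x} with hS
    have hSb : BddBelow S := ⟨m, by rintro r ⟨x, hx, rfl⟩; exact hh x hx⟩
    have hSn : S.Nonempty := ⟨_, Pi.single 0 1, by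
      intro h0
      have := congrFun h0 0
      simp at this, rfl⟩
    set I := sInf S with hI
    have hmI : m ≤ I := le_csInf hSn (by rintro r ⟨x, hx, rfl⟩; exact hh x hx)
    have hI0 : 0 < I := hm.trans_le hmI
    have hIle : ∀ x, x ≠ 0 → I ≤ h x x := fun x hx => csInf_le hSb ⟨x, hx, rfl⟩
    obtain ⟨r, ⟨v, hv, rfl⟩, hvI⟩ := exists_lt_of_csInf_lt hSn
      (show sInf S < 4 * (1 - c) * I by rw [← hI]; nlinarith)
    obtain ⟨b, a, ha, hva⟩ := exists_basis v hv
    have hb0 : b 0 ≠ 0 := b.ne_zero 0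
    have hwI : I ≤ h (b 0) (b 0) := hIle _ hb0
    have hw : 0 < h (b 0) (b 0) := hI0.trans_le hwI
    have hwle : h (b 0) (b 0) ≤ 4 * (1 - c) * I := by
      have h1 : h v v = (a : ℝ) ^ 2 * h (b 0) (b 0) := by
        rw [hva]
        have e1 : h (a • b 0) = a • h (b 0) := map_zsmul _ _ _
        have e2 : h (b 0) (a • b 0) = a • h (b 0) (b 0) := map_zsmul _ _ _
        rw [e1, AddMonoidHom.smul_apply, e2, zsmul_eq_mul, zsmul_eq_mul]
        ring
      have h2 : (1 : ℝ) ≤ (a : ℝ) ^ 2 := by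
        have h3 : (1 : ℤ) ≤ a ^ 2 := by
          have := Int.one_le_abs ha
          nlinarith [sq_abs a]
        exact_mod_cast h3
      nlinarith
    obtain ⟨ι, hι, hschur⟩ := step h hsym b hw c I hwle hIle
    set P' : Fin (n + 1) → A := fun k => ∑ i, b.repr (Pi.single i 1) k • P i with hP'
    have hT : T B h (fun i => Pi.single i 1) P = T B h b P' := change B h b P
    obtain ⟨k0, hk0⟩ := change_ne B hs hB b P hP
    rw [hT]
    -- the decomposition
    set α : Fin (n + 1) → ℝ := fun k => h (b k) (b 0) / h (b 0) (b 0) with hα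
    have hdec : T B h b P' = h (b 0) (b 0) * (∑ k, ∑ l, α k * α l * B (P' k) (P' l)) +
        T B (schur h ι (b 0)) (fun i => Pi.single i 1) (fun i => P' i.succ) := by
      have h1 : T B h b P' - h (b 0) (b 0) * (∑ k, ∑ l, α k * α l * B (P' k) (P' l)) =
          ∑ k, ∑ l, (h (b k) (b l) - h (b k) (b 0) * h (b 0) (b l) / h (b 0) (b 0)) *
            B (P' k) (P' l) := by
        unfold T
        rw [Finset.mul_sum, ← Finset.sum_sub_distrib]
        refine Finset.sum_congr rfl fun k _ => ?_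
        rw [Finset.mul_sum, ← Finset.sum_sub_distrib]
        refine Finset.sum_congr rfl fun l _ => ?_
        simp only [hα]
        rw [hsym (b 0) (b l)]
        field_simp
      have h2 : ∑ k, ∑ l, (h (b k) (b l) - h (b k) (b 0) * h (b 0) (b l) / h (b 0) (b 0)) *
            B (P' k) (P' l) =
          T B (schur h ι (b 0)) (fun i => Pi.single i 1) (fun i => P' i.succ) := by
        rw [Fin.sum_univ_succ]
        have h3 : ∑ l, (h (b 0) (b l) - h (b 0) (b 0) * h (b 0) (b l) / h (b 0) (b 0)) *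
            B (P' 0) (P' l) = 0 := by
          refine Finset.sum_eq_zero fun l _ => ?_
          rw [mul_div_cancel_left₀ _ hw.ne', sub_self, zero_mul]
        rw [h3, zero_add]
        unfold T
        refine Finset.sum_congr rfl fun k _ => ?_
        rw [Fin.sum_univ_succ, mul_div_assoc, div_self hw.ne', mul_one, sub_self, zero_mul,
          zero_add]
        refine Finset.sum_congr rfl fun l _ => ?_
        rw [schur_apply, hι, hι]
      linarith
    have hpos : 0 ≤ ∑ k, ∑ l, α k * α l * B (P' k) (P' l) := real_nonneg B hs hB P' α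
    by_cases hcase : ∃ i : Fin n, B (P' i.succ) (P' i.succ) ≠ 0
    · have h1 := ih (schur h ι (b 0)) (fun x y => by
        rw [schur_apply, schur_apply, hsym (ι x) (ι y), hsym (b 0) (ι y), hsym (ι x) (b 0)]
        ring) (c * I) (by positivity) hschur (fun i => P' i.succ) hcase
      obtain ⟨i, -⟩ := hcase
      obtain ⟨N, rfl⟩ : ∃ N, n = N + 1 := ⟨n - 1, by have := i.2; omega⟩
      have h2 : c ^ (N + 1 - 1) * (c * I) * μ = c ^ (N + 1) * I * μ := by
        rw [Nat.add_sub_cancel]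
        ring
      rw [h2] at h1
      have h3 : c ^ (N + 1 + 1 - 1) * m * μ ≤ c ^ (N + 1) * I * μ := by
        rw [Nat.add_sub_cancel]
        exact mul_le_mul_of_nonneg_right (mul_le_mul_of_nonneg_left hmI (by positivity)) hμ
      have h4 : 0 ≤ h (b 0) (b 0) * (∑ k, ∑ l, α k * α l * B (P' k) (P' l)) :=
        mul_nonneg hw.le hpos
      linarith
    · push Not at hcase
      have hk00 : k0 = 0 := by
        by_contra hne
        obtain ⟨j, rfl⟩ := Fin.exists_succ_eq.2 hne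
        exact hk0 (hcase j)
      have hq0 : B (P' 0) (P' 0) ≠ 0 := by
        rw [hk00] at hk0
        exact hk0
      have h1 : T B h b P' = h (b 0) (b 0) * B (P' 0) (P' 0) := by
        unfold T
        rw [Fin.sum_univ_succ]
        have h3 : ∑ i : Fin n, ∑ j, h (b i.succ) (b j) * B (P' i.succ) (P' j) = 0 :=
          Finset.sum_eq_zero fun i _ => Finset.sum_eq_zero fun j _ => by
            rw [radical B hs hB (hcase i), mul_zero]
        rw [h3, add_zero, Fin.sum_univ_succ]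
        have h4 : ∑ j : Fin n, h (b 0) (b j.succ) * B (P' 0) (P' j.succ) = 0 :=
          Finset.sum_eq_zero fun j _ => by
            rw [hs, radical B hs hB (hcase j), mul_zero]
        rw [h4, add_zero]
      rw [h1]
      have h2 : μ ≤ B (P' 0) (P' 0) := hmin _ hq0
      have h3 : c ^ (n + 1 - 1) ≤ 1 := pow_le_one₀ hc0.le (by linarith)
      calc c ^ (n + 1 - 1) * m * μ ≤ 1 * I * B (P' 0) (P' 0) := by
            refine mul_le_mul (mul_le_mul h3 hmI hm.le zero_le_one) h2 hμ ?_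
            linarith
        _ ≤ h (b 0) (b 0) * B (P' 0) (P' 0) := by
            rw [one_mul]
            exact mul_le_mul_of_nonneg_right hwI (hB _)

/-- **the minimum of the tensor product** -/
theorem tensor_min (hs : ∀ P Q, B P Q = B Q P) (hB : ∀ P, 0 ≤ B P P) (μ : ℝ) (hμ : 0 ≤ μ)
    (hmin : ∀ P, B P P ≠ 0 → μ ≤ B P P) (n : ℕ) (h : (Fin n → ℤ) →+ (Fin n → ℤ) →+ ℝ)
    (hsym : ∀ x y, h x y = h y x) (m : ℝ) (hm : 0 < m) (hh : ∀ x, x ≠ 0 → m ≤ h x x)
    (P : Fin n → A) (hP : ∃ i, B (P i) (P i) ≠ 0) :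
    (3 / 4 : ℝ) ^ (n - 1) * m * μ ≤ T B h (fun i => Pi.single i 1) P := by
  have hlim : Tendsto (fun c : ℝ => c ^ (n - 1) * m * μ) (𝓝[<] (3 / 4 : ℝ))
      (𝓝 ((3 / 4 : ℝ) ^ (n - 1) * m * μ)) := by
    refine Tendsto.mono_left ?_ nhdsWithin_le_nhds
    exact ((continuous_pow (n - 1)).mul continuous_const |>.mul continuous_const).tendsto _
  refine le_of_tendsto hlim ?_
  have h1 : ∀ᶠ c : ℝ in 𝓝[<] (3 / 4 : ℝ), 0 < c :=
    nhdsWithin_le_nhds (lt_mem_nhds (by norm_num))
  filter_upwards [h1, self_mem_nhdsWithin] with c hc0 hc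
  exact tensor_min_aux B hs hB μ hμ hmin c hc0 hc n h hsym m hm hh P hP

end form

end Pool.Agent.W999.LS
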