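import Pool.Agent.W999.LS.Block
import Pool.Agent.H437R2.Man.MWPar

/-!
# Heights on quadratic twists: a parallelogram law which is uniform in the twist
-/

set_option autoImplicit false

open WeierstrassCurve Height
open Pool.Agent.H437R2.Man.MW

namespace Pool.Agent.W999.LS

/-- scaling of the coordinates -/
def sc (d : ℚ) (v : Fin 3 → ℚ) : Fin 3 → ℚ := ![v 0, d * v 1, d ^ 2 * v 2]

theorem sc_addSub (e1 e2 e3 d s t u : ℚ) :
    (fun i ↦ (addSubMap (crv e1 e2 e3) i).eval (sc d ![s, t, u])) =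
      sc d (fun i ↦ (addSubMap (crv (d * e1) (d * e2) (d * e3)) i).eval ![s, t, u]) := by
  have h1 : sc d ![s, t, u] = ![s, d * t, d ^ 2 * u] := by
    simp [sc]
  rw [h1, eval_addSub, eval_addSub]
  ext i
  fin_cases i
  · simp [sc]
    ring
  · simp [sc]
    ring
  · simp [sc]
    ring

/-- the height of `x / d` -/
noncomputable def hX {e1 e2 e3 : ℚ} (d : ℚ) (P : Pt (d * e1) (d * e2) (d * e3)) : ℝ :=
  logHeight ![P.xRep 0, d * P.xRep 1]

theorem hX_zero {e1 e2 e3 : ℚ} (d : ℚ) : hX d (0 : Pt (d * e1) (d * e2) (d * e3)) = 0 := by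
  unfold hX
  rw [Affine.Point.xRep_zero]
  simp only [Matrix.cons_val_zero, Matrix.cons_val_one, mul_zero]
  rw [logHeight_swap, ← logHeight₁_eq_logHeight, logHeight₁_zero]

theorem hX_nonneg {e1 e2 e3 : ℚ} (d : ℚ) (P : Pt (d * e1) (d * e2) (d * e3)) : 0 ≤ hX d P :=
  logHeight_nonneg _

theorem sym_unif : ∃ C : ℝ, ∀ (e1 e2 e3 d : ℚ), d ≠ 0 → ∀ P Q : Pt (d * e1) (d * e2) (d * e3),
    |logHeight (sc d (P.sym2x Q)) - (hX d P + hX d Q)| ≤ C := by
  obtain ⟨C, hC⟩ := abs_logHeight_sym2_sub_le ℚ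
  refine ⟨C, fun e1 e2 e3 d hd P Q ↦ ?_⟩
  have hne : ∀ P : Pt (d * e1) (d * e2) (d * e3), ![P.xRep 0, d * P.xRep 1] ≠ 0 := by
    intro P h0
    apply P.xRep_ne_zero
    have a0 := congrFun h0 0
    have a1 := congrFun h0 1
    simp only [Matrix.cons_val_zero, Matrix.cons_val_one, Pi.zero_apply] at a0 a1
    ext i
    fin_cases i
    · exact a0
    · exact (mul_eq_zero.1 a1).resolve_left hd
  have h1 := hC (hne P) (hne Q)
  have h2 : sc d (P.sym2x Q) = ![P.xRep 0 * Q.xRep 0,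
      P.xRep 0 * (d * Q.xRep 1) + (d * P.xRep 1) * Q.xRep 0, (d * P.xRep 1) * (d * Q.xRep 1)] := by
    ext i
    fin_cases i
    · simp [sc, Affine.Point.sym2x]
    · simp [sc, Affine.Point.sym2x]
      ring
    · simp [sc, Affine.Point.sym2x]
      ring
  rw [h2]
  exact h1

/-- the parallelogram law, uniform in the twist -/
theorem par_unif {e1 e2 e3 : ℚ} (h12 : e1 ≠ e2) (h13 : e1 ≠ e3) (h23 : e2 ≠ e3) :
    ∃ C : ℝ, 0 ≤ C ∧ ∀ d : ℚ, d ≠ 0 → ∀ P Q : Pt (d * e1) (d * e2) (d * e3),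
      |hX d (P + Q) + hX d (P - Q) - 2 * (hX d P + hX d Q)| ≤ C := by
  have := crv_ell h12 h13 h23
  obtain ⟨C1, hC1⟩ := sym_unif
  obtain ⟨C2, hC2⟩ := WeierstrassCurve.abs_logHeight_addSubMap_sub_two_mul_logHeight_le
    (crv e1 e2 e3)
  have key : ∀ d : ℚ, d ≠ 0 → ∀ P Q : Pt (d * e1) (d * e2) (d * e3),
      |hX d (P + Q) + hX d (P - Q) - 2 * (hX d P + hX d Q)| ≤ 3 * C1 + C2 := by
    intro d hd P Q
    have a1 := hC1 e1 e2 e3 d hd P Q
    have a2 := hC1 e1 e2 e3 d hd (P + Q) (P - Q)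
    have a3 := hC2 (sc d (P.sym2x Q))
    obtain ⟨c, hc, hceq⟩ := addSub_sym2x (fun h => h12 (mul_left_cancel₀ hd h))
      (fun h => h13 (mul_left_cancel₀ hd h)) (fun h => h23 (mul_left_cancel₀ hd h)) P Q
    have h3 : P.sym2x Q = ![P.sym2x Q 0, P.sym2x Q 1, P.sym2x Q 2] := by
      ext i; fin_cases i <;> rfl
    have h4 := sc_addSub e1 e2 e3 d (P.sym2x Q 0) (P.sym2x Q 1) (P.sym2x Q 2)
    rw [← h3] at h4
    rw [h4, hceq] at a3
    have h5 : sc d (c • (P + Q).sym2x (P - Q)) = c • sc d ((P + Q).sym2x (P - Q)) := by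
      ext i
      fin_cases i
      · simp [sc]
      · simp [sc]
        ring
      · simp [sc]
        ring
    rw [h5, logHeight_smul_eq_logHeight _ hc] at a3
    rw [abs_le] at a1 a2 a3 ⊢
    constructor <;> linarith [a1.1, a1.2, a2.1, a2.2, a3.1, a3.2]
  exact ⟨3 * C1 + C2, le_trans (abs_nonneg _) (key 1 one_ne_zero 0 0), key⟩

end Pool.Agent.W999.LS
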